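import Pool.Agent.T9h36.NY.Sharp

set_option autoImplicit false

/-!
# NEXP against algorithms that ask an advice holder

`EXP/poly` is the class of the languages decided in exponential time with advice of polynomial
length; it contains `P/poly`, and even `NP/poly`, `P^NP/poly` and `PSPACE/poly`.  One can view it as
a conversation: there is an advice holder who knows the advice string `a n`, but not the input `x`
of length `n`, and who has exponential time.  If all `n` bits of `x` are sent to the advice holder,
the languages that can be decided are exactly those in `EXP/poly`; it is open whether `NEXP` is
contained in `EXP/poly`, and also whether it is contained in the smaller class `P/poly`.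

The theorem says that `NEXP` is not contained in the corresponding class if slightly fewer than
`n` bits are sent: at most `m(n)` bits, where `n - m(n)` grows faster than every multiple of
`log n`.  Here the other partner, who knows `x`, is much more powerful than a polynomial-time
algorithm: the input is accepted if and only if for some string `u` of length `O(n^c)` and some
correct transcript `s` of a conversation the triple `(x, u, s)` belongs to `B \ B'`, where `B` and
`B'` are arbitrary sets in `NTIME(2^O(n^b)) ∩ EXP`, for instance sets in `NP`; the string `u` can
consist of the answers to `O(n^c)` adaptive queries to an oracle in `NP`.  The transcript, that is,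
the answers of the advice holder, may have length `O(n^c)` (`b` and `c` are fixed in advance).

Method.  The class `InTalk b c m` is contained in `EXP/poly`.  If `NEXP` is contained in
`EXP/poly`, then a universal set `KSet` for nondeterministic exponential time is decided in time
`2^(n^k)` with advice of length `n^k` for a FIXED `k`, and so are all the sets `B` and `B'`, for
inputs of length `n^c`.  By a martingale argument there is then a language in `EXP` such that, for
all large `n` and for every advice string `s`, the set of the inputs of length `n` accepted with `s`
has only polynomially many elements if it is contained in the language; so more than `2^m(n)`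
transcripts are needed.
-/

namespace Pool.Agent.Results.MP_70d3b5_lc.AdviceHolder

open Filter Pool.Agent.H660R2.NX Pool.Agent.T9h36.NX Pool.Agent.T9h36.NY

/-- Let `b, c ≥ 1`.  Some language in `NEXP` is not in the class `InTalk b c m` of the languages that
are decided with at most `m(n)` bits sent to an advice holder, for all functions `m` such that
`n - m(n)` grows faster than every multiple of `log n`.  If `m(n) = n`, this class is
`EXP/poly`. -/
theorem result (b c : ℕ) (hb : 1 ≤ b) (hc : 1 ≤ c) :
    (∃ L : Set (List Bool), InNEXP L ∧ ∀ m : ℕ → ℕ,
      (∀ K : ℕ, ∀ᶠ n in atTop, m n + K * Nat.log 2 n ≤ n) → ¬ InTalk b c m L) ∧
    (∀ L : Set (List Bool), InTalk b c (fun n => n) L ↔ InEXPPoly L) :=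
  ⟨exists_not_inTalk hb hc,
    fun _ => ⟨fun h => h.inEXPPoly ⟨0, fun _ => le_rfl⟩, fun h => h.inTalk hc⟩⟩

end Pool.Agent.Results.MP_70d3b5_lc.AdviceHolder
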