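import Pool.Agent.T9h36.NX.Block

set_option autoImplicit false

/-!
# NEXP against polynomial time with restricted access to long advice

`P/poly` is the class of the languages that are decided in polynomial time with an advice string
of polynomial length which depends only on the length `n` of the input.  What is known about
`NEXP` and uniform algorithms with advice concerns advice of a fixed polynomial length:
`NEXP` is not contained in `P^NP[n^c]/n^c`, polynomial time with `n^c` queries to an oracle in `NP`
and with `n^c` bits of advice (Buhrman, Fortnow, Santhanam 2009).

The theorem allows much longer advice, of which the algorithm reads a small part only.

* `InBlock b c`: the advice is an arbitrary function `O n` from strings to strings (so its length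
  may be exponential), an input `x` of length `n` is accepted if and only if for some string `u` of
  length `O(n^c)` and some transcript `S` of queries to `O n` with correct answers the triple
  `(x, u, S)` belongs to `B \ B'`.  The answers may have total length `O(n^c)`, the total length
  of the queries (the addresses) is `o(n^(1/(b c)))`.
* `InUnion b c`: for every length `n` there is a set `A n` of `2^o(n^(1/(b c)))` advice
  strings of length `O(n^c)` each, and `x` is accepted if and only if for some `u` of length
  `O(n^c)` and some `s` in `A n` the triple `(x, u, s)` belongs to `B \ B'`.  This class
  contains the first one.

Here `B` and `B'` are arbitrary sets in `NTIME(2^O(n^b)) ∩ EXP`; the exponent of the deterministic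
algorithms is not bounded.  Sets in `NP` are allowed for every `b ≥ 1`.  The string `u` serves for
the answers of an oracle in this class: the answers `yes` are checked by `B`, the answers
`no` by `B'`.

For `b = c = 1`, the theorem shows for example that the languages in `NEXP` do not all have
nondeterministic polynomial-time algorithms that read `o(n)` bits of polynomially long advice,
where the addresses of these bits are counted.  Reading all the bits would be `NP/poly`.

Method.  Suppose that `NEXP` is contained in the class `InUnion b c`.  Apply this to a universal
set `KSet` for nondeterministic exponential time and to the set `NSet` of the pairs `(y, m)` such
that `KSet` has `m` members of length `|y|` different from `y`: with the right number `m` (the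
census) this is the complement of `KSet`.  It follows that both `KSet` and its complement are,
length by length, unions of few sets that are decided in time `2^(n^k)` with a FIXED exponent `k`,
and then the same holds for all languages in `NEXP`, as the sets `B` and `B'` of their
representations reduce to `KSet`.  But the learning algorithm Winnow (Littlestone), whose hypotheses
are used for a diagonalization over all features of this form, produces a language in `EXP` which
is not a union of few of them.
-/

namespace Pool.Agent.Results.MP_70d3b5_lc.BlockAccess

open Pool.Agent.H660R2.NX Pool.Agent.T9h36.NX

/-- For all `b, c ≥ 1`, some language in `NEXP` is not in the nonuniform class `InUnion b c` with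
`2^o(n^(1/(b c)))` advice strings of length `O(n^c)`, and hence not in the nonuniform class
`InBlock b c` with block access to arbitrarily long advice, `o(n^(1/(b c)))` bits of addresses
and `O(n^c)` bits of answers. -/
theorem result (b c : ℕ) (hb : 1 ≤ b) (hc : 1 ≤ c) :
    ∃ L : Set (List Bool), InNEXP L ∧ ¬ InUnion b c L ∧ ¬ InBlock b c L := by
  obtain ⟨L, hL, h⟩ := exists_not_inUnion hb hc
  exact ⟨L, hL, h, fun h2 => h (h2.inUnion hb hc)⟩

end Pool.Agent.Results.MP_70d3b5_lc.BlockAccess
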