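import Pool.Agent.T9h36.NY.Dich

set_option autoImplicit false

/-!
# Either NEXP is not contained in EXP/poly, or EXP has languages that look random

The question is whether every language in `NEXP` has circuits of polynomial size, i.e. whether
`NEXP` is contained in `P/poly`.  The theorem is an alternative for the larger class `EXP/poly` of
the languages decided in exponential time with polynomially long advice: for all `b, c ≥ 1`,

* either some language in `NEXP` is not in `EXP/poly`, and in particular not in `P/poly`;
* or some language `L` in `EXP` looks random, at ALL large lengths `n`, to all nondeterministic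
  algorithms with `O(n^c)` bits of advice of the following kind: an input `x` of length `n` is
  accepted if and only if for some string `u` of length `O(n^c)` the triple `(x, u, s)` is in
  `B \ B'`, where `s` is the advice string, and `B` and `B'` are in `NTIME(2^O(n^b))`.  These are
  for instance the polynomial-time algorithms with `O(n^c)` adaptive queries to an oracle in `NP`,
  whose answers are guessed in `u`.

More precisely, in the second case the set `S` of the accepted inputs of length `n` satisfies, with
a number `E` that depends on `b` and `c` only: `S` agrees with `L` on at least
`2^(n-1) - 2^(n/2) (n+1)^E / 2` and on at most `2^(n-1) + 2^(n/2) (n+1)^E / 2` of the inputs of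
length `n`; if `S` is contained in `L`, then `S` has at most `(n+1)^E` elements; if `S` contains
all members of `L` of length `n`, then it contains all strings of length `n` except for
`(n+1)^E` of them.

So if `NEXP` is contained in `EXP/poly`, then the separation of `NEXP` from `P^NP[n^c]/n^c`
(Buhrman, Fortnow, Santhanam 2009) holds at all large input lengths and on average, with
an optimal error `1/2 - 2^(-n/2) poly(n)`.  Without an assumption it is open whether `NEXP` is
contained in `NP` at infinitely many input lengths.
-/

namespace Pool.Agent.Results.MP_70d3b5_lc.RandomLikeDichotomy

open Pool.Agent.H660R2.NX Pool.Agent.T9h36.NX Pool.Agent.T9h36.NY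

/-- For all `b, c ≥ 1`: either some language in `NEXP` is not in `EXP/poly`, or some language in
`EXP` is random-like, at all large lengths, for nondeterministic algorithms of the form `B \ B'`
with `B` and `B'` in `NTIME(2 ^ O(n ^ b))` and with `O(n ^ c)` bits of advice. -/
theorem result (b c : ℕ) (hb : 1 ≤ b) (hc : 1 ≤ c) :
    (∃ L : Set (List Bool), InNEXP L ∧ ¬ InEXPPoly L) ∨
      (∃ L : Set (List Bool), InEXP L ∧ RandomLike b c L) := by
  by_cases h : InEXPPoly KSet
  · obtain ⟨L, h1, -, h2⟩ := dich hb hc h
    exact Or.inr ⟨L, h1, h2⟩
  · exact Or.inl ⟨KSet, inNEXP_KSet, h⟩

end Pool.Agent.Results.MP_70d3b5_lc.RandomLikeDichotomy
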