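import Pool.Agent.T9h36.NZ.Compl

set_option autoImplicit false

/-!
# NEXP against reductions with few queries to a sparse set

By a theorem of Meyer, `P/poly` is the class of the languages that are decided in polynomial time
with polynomially many queries to some sparse set.  So the question whether `NEXP` is contained in
`P/poly` is the question whether all languages in `NEXP` have polynomial-time Turing reductions to
sparse sets.  The theorem is a negative answer for the reductions that ask the sparse set only
`q(n) = o(n / log n)` queries on inputs of length `n` (adaptively).  The reductions may be much more
powerful in other respects (`c` is a constant fixed in advance): in addition to the `q(n)` queries
to the sparse set they can ask `O(n^c)` adaptive queries to a set in `NP`, they can use an arbitrary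
advice string of length `O(n^c)`, and they can be nondeterministic, with `O(n^c)` guessed bits.  The
length of the queries, the density of the sparse set and the running time are bounded by arbitrary
polynomials.  Deterministic reductions are the special case in which the guessed string is ignored;
since the theorem holds for a language and also for its complement, it applies for instance to
disjunctive and to conjunctive reductions with polynomially many queries, too.

Method.  The queries to the sparse set are replaced by a conversation with an advice holder who
knows the potential queries that are in the sparse set: for one query, a binary search is made, in
which the advice holder sends a name of an element (the input and the oracle answers for which it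
is asked), and receives one bit, the result of the comparison.  Since the number of the elements is
polynomial, `O(log n)` bits suffice for one query, and `o(n)` bits for all queries; and by the
method of the hand-in `AdviceHolder` neither a certain language in `NEXP` nor its complement is
decided with conversations in which only `n/2 - ω(log n)` bits are sent to the advice holder.
-/

namespace Pool.Agent.Results.MP_70d3b5_lc.SparseQueries

open Filter Pool.Agent.H660R2.NX Pool.Agent.T9h36.NZ

/-- Let `c ≥ 1`.  For some language in `NEXP`, neither it nor its complement is in the class
`InSparse c q` of the languages that have nondeterministic reductions to the join of a set in `NP`
and a sparse set with `O(n^c)` guessed bits, advice of length `O(n^c)` and `O(n^c)` queries, `q(n)`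
of them to the sparse set, for all functions `q` with `q(n) = o(n / log n)`. -/
theorem result (c : ℕ) (hc : 1 ≤ c) :
    ∃ L : Set (List Bool), InNEXP L ∧ ∀ q : ℕ → ℕ,
      (∀ K : ℕ, ∀ᶠ n in atTop, K * (q n * Nat.log 2 n) ≤ n) →
        ¬ InSparse c q L ∧ ¬ InSparse c q Lᶜ :=
  exists_not_inSparse_compl hc

end Pool.Agent.Results.MP_70d3b5_lc.SparseQueries
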